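import Pool.Agent.FS.LiouvilleLevels.Main

open Set Filter Topology Metric TopologicalSpace

namespace Pool.Agent.FS.LiouvilleLevels

variable {E : Type} [NormedAddCommGroup E] [NormedSpace ℂ E] [ProperSpace E] {M : Type}
  [TopologicalSpace M] [ChartedSpace E M] [T2Space M]

variable (E) in
/-- Decay property with constant `θ`. -/
def Dec (K L : Set M) (θ : ℝ) : Prop :=
  ∀ w : M → ℝ, Psh E w Kᶜ → ∀ c s : ℝ, 0 ≤ s → (∀ y ∉ K, w y ≤ c) →
    (∃ S : Set M, IsCompact S ∧ ∀ y ∉ S, w y ≤ c - s) → ∀ y ∉ L, w y ≤ c - θ * s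

variable (E) in
theorem dec_one [ConnectedSpace M] (hω : ∀ A : Set M, A.Countable → IsCompact (closure A))
    {K : Set M} (hK : IsCompact K) : ∃ L : Set M, IsCompact L ∧ K ⊆ L ∧ Dec E K L 1 := by
  let A : Set ℝ := {θ | θ ≤ 1 ∧ ∃ L : Set M, IsCompact L ∧ K ⊆ L ∧ Dec E K L θ}
  have hne : A.Nonempty :=
    ⟨0, zero_le_one, K, hK, Subset.rfl, fun w _ c s _ hc _ y hy => by simpa using hc y hy⟩
  have hbd : BddAbove A := ⟨1, fun θ h => h.1⟩
  obtain ⟨a, -, ha, haA⟩ := exists_seq_tendsto_sSup hne hbd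
  choose L hL hKL hD using fun n => (haA n).2
  have h0 := compact_closure_iUnion E hω hL
  set L₀ := closure (⋃ n, L n) with hL₀
  have hs0 : ∀ n, L n ⊆ L₀ := fun n => (subset_iUnion L n).trans subset_closure
  have hK0 : K ⊆ L₀ := (hKL 0).trans (hs0 0)
  have hD0 : Dec E K L₀ (sSup A) := by
    intro w hw c s hs hc hS y hy
    exact ge_of_tendsto' ((ha.mul_const s).const_sub c) fun n =>
      hD n w hw c s hs hc hS y fun h => hy (hs0 n h)
  have ht : sSup A ≤ 1 := csSup_le hne fun θ h => h.1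
  rcases ht.eq_or_lt with h | h
  · exact ⟨L₀, h0, hK0, h ▸ hD0⟩
  exfalso
  set t := sSup A with htd
  obtain ⟨p⟩ : Nonempty M := inferInstance
  obtain ⟨Q, hQ, hLQ, hq⟩ := hull E h0
  obtain ⟨V, hV, -, hQV⟩ := exists_lev E p hQ
  have hn : ∀ n : ℕ, ¬ Dec E K (closure V) (t + 1 / ((n : ℝ) + 1) * (1 - t)) := by
    intro n hd
    have h1 : (0 : ℝ) < 1 / ((n : ℝ) + 1) := by positivity
    have h2 : 1 / ((n : ℝ) + 1) ≤ 1 := by
      rw [div_le_one (by positivity)]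
      linarith [n.cast_nonneg (α := ℝ)]
    have : t + 1 / ((n : ℝ) + 1) * (1 - t) ≤ t := le_csSup hbd
      ⟨by nlinarith, _, hV.2.2, hK0.trans (hLQ.trans (hQV.trans subset_closure)), hd⟩
    nlinarith
  simp only [Dec, not_forall, not_le, exists_prop] at hn
  choose w hw c s hs hc hS y hy hlt using hn
  choose S hS hSw using hS
  have hS0 := compact_closure_iUnion E hω hS
  have hY := hω _ (countable_range y)
  have hYV : closure (range y) ⊆ Vᶜ := closure_minimal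
    (range_subset_iff.2 fun n h => hy n (subset_closure h)) hV.1.isClosed_compl
  obtain ⟨δ, hδ, hH⟩ := har_global (E := E) h0.isClosed.isOpen_compl
    hS0.isClosed.isOpen_compl hY fun x hx => by
      have hxQ : x ∉ Q := fun h => hYV hx (hQV h)
      refine ⟨connectedComponentIn L₀ᶜ x, isPreconnected_connectedComponentIn,
        connectedComponentIn_subset _ _, mem_connectedComponentIn fun h => hxQ (hLQ h), ?_⟩
      obtain ⟨z, hz1, hz2⟩ := not_subset.1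
        fun h' : connectedComponentIn L₀ᶜ x ⊆ closure (⋃ n, S n) =>
          hq x hxQ (hS0.of_isClosed_subset isClosed_closure (closure_minimal h' isClosed_closure))
      exact ⟨z, hz1, hz2⟩
  obtain ⟨n, hn⟩ := exists_nat_one_div_lt hδ
  have := hH (w n) ((hw n).mono (compl_subset_compl.2 hK0)) (c n - t * s n) ((1 - t) * s n)
    (mul_nonneg (by linarith) (hs n)) (hD0 (w n) (hw n) (c n) (s n) (hs n) (hc n) ⟨_, hS n, hSw n⟩)
    (fun z hz => by
      have := hSw n z fun h => hz (subset_closure (mem_iUnion.2 ⟨n, h⟩))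
      linarith) (y n) (subset_closure (mem_range_self n))
  have h1 := hlt n
  have h2 : 0 ≤ (δ - 1 / ((n : ℝ) + 1)) * ((1 - t) * s n) :=
    mul_nonneg (by linarith) (mul_nonneg (by linarith) (hs n))
  nlinarith

omit [ProperSpace E] [T2Space M] in
/-- No increase towards the boundary. -/
theorem no_incr {W B K : Set M} (hW : IsOpen W) (hB : IsOpen B) (hK : IsClosed K)
    (hne : B.Nonempty) (hBW : B ⊆ W) (hKB : K ⊆ B)
    (hl : ∀ u : M → ℝ, Psh E u W → ∀ x ∈ W, ∀ y ∈ W, u x = u y)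
    {v : M → ℝ} (hv : Psh E v (W \ K)) {c : ℝ} (_hBc : closure B ⊆ W)
    (hc : ∀ y ∈ closure B \ B, v y ≤ c) : ∀ y ∈ W \ B, v y ≤ c := by
  classical
  intro y hy
  refine le_of_forall_gt_imp_ge_of_dense fun m hm => ?_
  have ho : IsOpen (W \ K) := hW.sdiff hK
  have hg : Psh E (fun z => if z ∈ B then m else max (v z) m) W := by
    refine psh_of_local fun z hz => ?_
    by_cases h1 : z ∈ B
    · refine ⟨_, univ, psh_const m univ, univ_mem, ?_⟩
      filter_upwards [hB.mem_nhds h1] with w hw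
      rw [if_pos hw]
    have hzK : z ∈ W \ K := ⟨hz, fun h => h1 (hKB h)⟩
    by_cases h2 : z ∈ closure B
    · refine ⟨_, univ, psh_const m univ, univ_mem, ?_⟩
      have := (upperSemicontinuousWithinAt_iff.1 (hv.1 z hzK)) m ((hc z ⟨h2, h1⟩).trans_lt hm)
      rw [ho.nhdsWithin_eq hzK] at this
      filter_upwards [this] with w hw
      split_ifs
      · rfl
      · exact (max_eq_right hw.le).symm
    · refine ⟨_, _, hv.max m, ho.mem_nhds hzK, ?_⟩
      filter_upwards [isClosed_closure.isOpen_compl.mem_nhds h2] with w hw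
      rw [if_neg fun h => hw (subset_closure h)]
  obtain ⟨p, hp⟩ := hne
  have := hl _ hg y hy.1 p (hBW hp)
  simp only [if_neg hy.2, if_pos hp] at this
  exact max_eq_right_iff.1 this

omit [ProperSpace E] [T2Space M] in
/-- No decrease towards the boundary. -/
theorem no_decr {W B K L : Set M} (hW : IsOpen W) (hK : IsClosed K) (hB : IsCompact (closure B))
    (hBW : closure B ⊆ W) (hD : Dec E K L 1) {v : M → ℝ} (hv : Psh E v (W \ K)) {C c : ℝ}
    (hC : ∀ y ∈ W \ K, v y ≤ C) (hc : ∀ y ∈ W \ B, v y ≤ c) : ∀ y ∈ W \ L, v y ≤ c := by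
  classical
  intro y hy
  have h0 : ∀ z ∉ closure B, (if z ∈ W then max (v z) c else c) = c := by
    intro z hz
    split_ifs with h
    · exact max_eq_right (hc z ⟨h, fun h' => hz (subset_closure h')⟩)
    · rfl
  have hg : Psh E (fun z => if z ∈ W then max (v z) c else c) Kᶜ := by
    refine psh_of_local fun z hz => ?_
    by_cases h1 : z ∈ W
    · refine ⟨_, _, hv.max c, (hW.sdiff hK).mem_nhds ⟨h1, hz⟩, ?_⟩
      filter_upwards [hW.mem_nhds h1] with w hw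
      rw [if_pos hw]
    · refine ⟨_, univ, psh_const c univ, univ_mem, ?_⟩
      filter_upwards [isClosed_closure.isOpen_compl.mem_nhds fun h => h1 (hBW h)] with w hw
      exact (h0 w hw).symm
  have := hD _ hg (max C c) (max C c - c) (sub_nonneg.2 (le_max_right _ _))
    (fun z hz => by
      split_ifs with h
      · exact max_le_max (hC z ⟨h, hz⟩) le_rfl
      · exact le_max_right _ _)
    ⟨_, hB, fun z hz => by rw [h0 z hz]; linarith⟩ y hy.2
  simp only [if_pos hy.1] at this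
  linarith [le_max_left (v y) c]

omit [ProperSpace E] [T2Space M] in
theorem Psh.spread {u : M → ℝ} {W C : Set M} (hu : Psh E u W) (hW : IsOpen W)
    (hC : IsPreconnected C) (hCW : C ⊆ W) {x y : M} (hx : x ∈ C) (hy : y ∈ C)
    (hm : ∀ z ∈ W, u z ≤ u x) : ∀ᶠ z in 𝓝 y, u z = u x := by
  refine hC.subset_of_closure_inter_subset (u := {y | ∀ᶠ z in 𝓝 y, u z = u x})
    isOpen_setOfPred_eventually_nhds ⟨x, hx, hu.eventually_eq hW (hCW hx) hm⟩ ?_ hy
  rintro z ⟨hz, hzC⟩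
  have hzW := hCW hzC
  have e : u z = u x := by
    refine le_antisymm (hm z hzW) (le_of_forall_gt_imp_ge_of_dense fun m h => ?_)
    have := (upperSemicontinuousWithinAt_iff.1 (hu.1 z hzW)) m h
    rw [hW.nhdsWithin_eq hzW] at this
    obtain ⟨w, h1, h2⟩ := mem_closure_iff_nhds.1 hz _ this
    have h3 : u w = u x := Eventually.self_of_nhds (p := fun z => u z = u x) h2
    have h4 : u w < m := h1
    linarith
  have := hu.eventually_eq hW hzW fun w hw => e ▸ hm w hw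
  rwa [e] at this

variable (E) in
theorem main [ConnectedSpace M] (hω : ∀ A : Set M, A.Countable → IsCompact (closure A))
    {K₀ : Set M} (hK₀ : IsCompact K₀) :
    ∃ W : Set M, IsOpen W ∧ IsConnected W ∧ IsSigmaCompact W ∧ K₀ ⊆ W ∧ IsCompact (closure W) ∧
      (∀ u : M → ℝ, Psh E u W → ∀ x ∈ W, ∀ y ∈ W, u x = u y) ∧
      ∀ K : Set M, IsCompact K → K ⊆ W → ∃ K' : Set M, IsCompact K' ∧ K ⊆ K' ∧ K' ⊆ W ∧
        ∀ u : M → ℝ, Psh E u (W \ K) → ∀ x ∈ W \ K', ∀ᶠ y in 𝓝 x, u y = u x := by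
  classical
  have : LocallyConnectedSpace M := locConn E
  obtain ⟨p⟩ : Nonempty M := inferInstance
  obtain ⟨L₀, hL₀, hend⟩ := ends E hω
  obtain ⟨W₀, h₀, hp₀, hK⟩ := exists_lev E p (hK₀.union hL₀)
  let T : Type := {W : Set M // Lev W ∧ p ∈ W}
  have hg : ∀ A : T, ∃ G : T, closure A.1 ⊆ G.1 ∧ Dec E (closure A.1) G.1 1 ∧
      ∀ y ∉ G.1, Unb (closure A.1) y := by
    intro A
    obtain ⟨L, hL, -, hD⟩ := dec_one E hω A.2.1.2.2
    obtain ⟨Q, hQ, hAQ, hq⟩ := hull E A.2.1.2.2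
    obtain ⟨G, hG, hp, hs⟩ := exists_lev E p (hL.union hQ)
    exact ⟨⟨G, hG, hp⟩, fun y hy => hs (Or.inr (hAQ hy)),
      fun w hw c s h1 h2 h3 y hy => hD w hw c s h1 h2 h3 y fun h => hy (hs (Or.inl h)),
      fun y hy => hq y fun h => hy (hs (Or.inr h))⟩
  choose g hg1 hg2 hg3 using hg
  have hf : ∀ A B : T, ∃ F : T, closure A.1 ⊆ F.1 ∧ closure B.1 ⊆ F.1 ∧
      (∀ u : M → ℝ, Psh E u F.1 → BddAbove (u '' F.1) → ∀ x ∈ B.1, ∀ y ∈ B.1, u y ≤ u x) ∧
      ∀ x ∈ closure B.1 \ (g A).1, ∀ y ∈ closure B.1 \ (g A).1,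
        y ∈ connectedComponentIn (closure A.1)ᶜ x →
          ∃ C : Set M, IsPreconnected C ∧ C ⊆ F.1 \ closure A.1 ∧ x ∈ C ∧ y ∈ C := by
    intro A B
    obtain ⟨W, hW, hBW, hc⟩ := step E hω B.2.1 B.2.2
    obtain ⟨Q, hQ, hj⟩ := join E (L := closure A.1) isClosed_closure
      (B.2.1.2.2.diff (g A).2.1.1) fun y hy h => hy.2 (hg1 A h)
    obtain ⟨F, hF, hp, hs⟩ := exists_lev E p ((A.2.1.2.2.union hW.2.2).union hQ)
    have hWF : W ⊆ F := fun y hy => hs (Or.inl (Or.inr (subset_closure hy)))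
    refine ⟨⟨F, hF, hp⟩, fun y hy => hs (Or.inl (Or.inl hy)), hBW.trans hWF,
      fun u hu hb => hc u (hu.mono hWF) (hb.mono (image_mono hWF)), fun x hx y hy h => ?_⟩
    obtain ⟨C, c1, c2, c3⟩ := hj x hx y hy h
    exact ⟨C, c1, fun z hz => ⟨hs (Or.inr (c2 hz).1), (c2 hz).2⟩, c3⟩
  choose f hf1 hf2 hf3 hf4 using hf
  obtain ⟨S, hS, hS0, hSf, hSg⟩ := exists_closed (⟨W₀, h₀, hp₀⟩ : T) f g
  have : Countable S := hS.to_subtype
  have hL : Lev (⋃ A : S, A.1.1) := Lev.iUnion E hω (fun A => A.1.2.1) fun A => A.1.2.2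
  set W : Set M := ⋃ A : S, A.1.1 with hWd
  have hsub : ∀ A ∈ S, A.1 ⊆ W := fun A hA => subset_iUnion (fun A : S => A.1.1) ⟨A, hA⟩
  have hcl : ∀ A ∈ S, closure A.1 ⊆ W := fun A hA => (hg1 A).trans (hsub _ (hSg A hA))
  have hcpt : ∀ K : Set M, IsCompact K → K ⊆ W → ∀ A ∈ S, ∃ B ∈ S, K ⊆ B.1 ∧ closure A.1 ⊆ B.1 := by
    intro K hK hKW A hA
    have : Nonempty S := ⟨⟨A, hA⟩⟩
    obtain ⟨B, hB⟩ := hK.elim_directed_cover (fun A : S => A.1.1) (fun A => A.1.2.1.1) hKW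
      fun A B => ⟨⟨f A.1 B.1, hSf _ A.2 _ B.2⟩, subset_closure.trans (hf1 _ _),
        subset_closure.trans (hf2 _ _)⟩
    exact ⟨f A B.1, hSf _ hA _ B.2, hB.trans (subset_closure.trans (hf2 _ _)), hf1 _ _⟩
  have hl : ∀ u : M → ℝ, Psh E u W → ∀ x ∈ W, ∀ y ∈ W, u x = u y := by
    intro u hu x hx y hy
    obtain ⟨B, hB, hxy, -⟩ := hcpt {x, y} (isCompact_singleton.insert x)
      (insert_subset hx (singleton_subset_iff.2 hy)) _ hS0
    have hF := hSf _ hB _ hB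
    have := hf3 B B u (hu.mono (hsub _ hF))
      (((hu.1.mono (hcl _ hF)).bddAbove_of_isCompact (f B B).2.1.2.2).mono
        (image_mono subset_closure))
    exact le_antisymm (this y (hxy (by simp)) x (hxy (by simp)))
      (this x (hxy (by simp)) y (hxy (by simp)))
  have h0W : W₀ ⊆ W := hsub _ hS0
  have he : W = ⋃ A : S, closure A.1.1 :=
    Subset.antisymm (iUnion_mono fun _ => subset_closure) (iUnion_subset fun A => hcl _ A.2)
  refine ⟨W, hL.1, ⟨⟨p, h0W hp₀⟩, hL.2.1⟩,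
    he ▸ isSigmaCompact_iUnion_of_isCompact _ fun A => A.1.2.1.2.2,
    (subset_union_left.trans hK).trans h0W, hL.2.2, hl, ?_⟩
  intro K hKc hKW
  obtain ⟨A, hA, hKA, hWA⟩ := hcpt K hKc hKW _ hS0
  have hA1 := hSg _ hA
  have hA2 := hSg _ hA1
  have s1 : closure A.1 ⊆ closure (g A).1 := (hg1 A).trans subset_closure
  have s2 : closure (g A).1 ⊆ closure (g (g A)).1 := (hg1 _).trans subset_closure
  refine ⟨closure (g (g A)).1, (g (g A)).2.1.2.2,
    (hKA.trans subset_closure).trans (s1.trans s2), hcl _ hA2, fun u hu x hx => ?_⟩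
  have hop : ∀ z, IsOpen (connectedComponentIn (closure A.1)ᶜ z) := fun z =>
    isClosed_closure.isOpen_compl.connectedComponentIn
  have hxA : x ∉ closure A.1 := fun h => hx.2 (s2 (s1 h))
  set D := connectedComponentIn (closure A.1)ᶜ x with hD
  have hxD : x ∈ D := mem_connectedComponentIn hxA
  set a := u x - 1 with ha
  let v : M → ℝ := fun z => if z ∈ D then max (u z) a else a
  have hvx : v x = u x := by
    simp only [v, if_pos hxD]
    exact max_eq_left (by linarith)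
  have hv : Psh E v (W \ closure A.1) := by
    refine psh_of_local fun z hz => ?_
    by_cases h1 : z ∈ D
    · refine ⟨_, _, hu.max a, (hL.1.sdiff hKc.isClosed).mem_nhds
        ⟨hz.1, fun h => hz.2 (subset_closure (hKA h))⟩, ?_⟩
      filter_upwards [(hop x).mem_nhds h1] with w hw
      exact (if_pos hw).symm
    · refine ⟨_, univ, psh_const a univ, univ_mem, ?_⟩
      filter_upwards [(hop z).mem_nhds (mem_connectedComponentIn hz.2)] with w hw
      refine (if_neg fun h => h1 ?_).symm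
      rw [hD, connectedComponentIn_eq h, ← connectedComponentIn_eq hw]
      exact mem_connectedComponentIn hz.2
  obtain ⟨c₀, hc₀⟩ := (hu.1.mono (fun y (hy : y ∈ closure A.1 \ A.1) =>
    (⟨hcl _ hA hy.1, fun h => hy.2 (hKA h)⟩ : y ∈ W \ K))).bddAbove_of_isCompact
      (A.2.1.2.2.diff A.2.1.1)
  have hub := no_incr hL.1 A.2.1.1 hKc.isClosed ⟨p, A.2.2⟩ (hsub _ hA) hKA hl hu (hcl _ hA)
    fun y hy => hc₀ (mem_image_of_mem u hy)
  have hvb : ∀ y ∈ W \ closure A.1, v y ≤ max c₀ a := by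
    intro y hy
    simp only [v]
    split_ifs
    · exact max_le_max (hub y ⟨hy.1, fun h => hy.2 (subset_closure h)⟩) le_rfl
    · exact le_max_right _ _
  obtain ⟨B, hB, hxB, hAB⟩ := hcpt {x} isCompact_singleton (singleton_subset_iff.2 hx.1) _ hA2
  have hAB' : closure A.1 ⊆ B.1 := (s1.trans s2).trans hAB
  have key : ∀ c, (∀ y ∈ closure B.1 \ B.1, v y ≤ c) → ∀ y ∈ W \ (g A).1, v y ≤ c := fun c hc =>
    no_decr hL.1 isClosed_closure B.2.1.2.2 (hcl _ hB) (hg2 A) hv hvb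
      (no_incr hL.1 B.2.1.1 isClosed_closure ⟨p, B.2.2⟩ (hsub _ hB) hAB' hl hv (hcl _ hB) hc)
  have hx1 : x ∈ W \ (g A).1 := ⟨hx.1, fun h => hx.2 (s2 (subset_closure h))⟩
  have hne : (closure B.1 \ B.1).Nonempty := by
    by_contra h
    have := key a (fun y hy => (h ⟨y, hy⟩).elim) x hx1
    linarith
  obtain ⟨z, hz, hmax⟩ := (hv.1.mono fun y (hy : y ∈ closure B.1 \ B.1) =>
    (⟨hcl _ hB hy.1, fun h => hy.2 (hAB' h)⟩ : y ∈ W \ closure A.1)).exists_isMaxOn hne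
      (B.2.1.2.2.diff B.2.1.1)
  have hm := key (v z) fun y hy => hmax hy
  have hzD : z ∈ D := by
    by_contra h
    have := hm x hx1
    simp only [v, if_neg h] at this
    change v x ≤ a at this
    linarith
  have hx2 : x ∉ (g (g A)).1 := fun h => hx.2 (subset_closure h)
  have hz2 : z ∉ (g (g A)).1 := fun h => hz.2 (hAB (subset_closure h))
  have hzx := hend _ _ A.2.1.2.2 (g A).2.1.2.2
    ((subset_union_right.trans hK).trans (subset_closure.trans (hWA.trans subset_closure))) s1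
    x (fun h => hx2 (hg1 _ h)) z (fun h => hz2 (hg1 _ h)) (hg3 _ x hx2) (hg3 _ z hz2) hzD
  obtain ⟨C, c1, c2, c3, c4⟩ := hf4 (g A) B x ⟨subset_closure (hxB rfl), hx2⟩ z ⟨hz.1, hz2⟩ hzx
  have hsp := (hv.mono (sdiff_subset_sdiff_right s1)).spread (hL.1.sdiff isClosed_closure) c1
    (fun y hy => ⟨hsub _ (hSf _ hA1 _ hB) (c2 hy).1, (c2 hy).2⟩) c4 c3
    fun y hy => hm y ⟨hy.1, fun h => hy.2 (subset_closure h)⟩
  have e : u x = v z := hvx ▸ Eventually.self_of_nhds (p := fun y => v y = v z) hsp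
  filter_upwards [hsp, (hop x).mem_nhds hxD] with y h1 h2
  have h3 : v y = max (u y) a := if_pos (show y ∈ D from h2)
  rw [h3, ← e] at h1
  rcases max_choice (u y) a with h | h
  · exact h ▸ h1
  · linarith

theorem exists_closed' {T : Type} (t : T) (f : ℕ → T → T → T) :
    ∃ S : Set T, S.Countable ∧ t ∈ S ∧ ∀ i, ∀ a ∈ S, ∀ b ∈ S, f i a b ∈ S := by
  let F : Set T → Set T := fun s => s ∪ ⋃ i, image2 (f i) s s
  let s : ℕ → Set T := fun n => F^[n] {t}
  have hs : ∀ n, s (n + 1) = F (s n) := fun n => Function.iterate_succ_apply' F n _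
  have hm : Monotone s := monotone_nat_of_le_succ fun n => by
    rw [hs]
    exact subset_union_left
  have hc : ∀ n, (s n).Countable := by
    intro n
    induction n with
    | zero => exact countable_singleton t
    | succ n ih =>
      rw [hs]
      exact ih.union (countable_iUnion fun i => ih.image2 ih (f i))
  refine ⟨⋃ n, s n, countable_iUnion hc, mem_iUnion.2 ⟨0, rfl⟩, fun k a ha b hb => ?_⟩
  obtain ⟨i, hi⟩ := mem_iUnion.1 ha
  obtain ⟨j, hj⟩ := mem_iUnion.1 hb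
  refine mem_iUnion.2 ⟨max i j + 1, ?_⟩
  rw [hs]
  exact Or.inr (mem_iUnion.2
    ⟨k, mem_image2_of_mem (hm (le_max_left i j) hi) (hm (le_max_right i j) hj)⟩)

variable (E) in
theorem har_unif [ConnectedSpace M] (hcc : ∀ u : ℕ → M, ∃ x : M, MapClusterPt x atTop u)
    (p : M) {O : Set M} (hO : IsOpen O) (hne : O.Nonempty) :
    ∃ t : ℝ, 0 < t ∧ ∀ B : Set M, IsCompact B → ∃ W : Set M, Lev W ∧ p ∈ W ∧ Har E W O B t := by
  obtain ⟨q, hq⟩ := hne
  have key : ∃ t : ℝ, 0 < t ∧ ∀ y, ∃ N ∈ 𝓝 y, ∃ W : Set M, Lev W ∧ p ∈ W ∧ Har E W O N t := by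
    by_contra hcon
    have h : ∀ n : ℕ, ∃ y, ¬ ∃ N ∈ 𝓝 y, ∃ W : Set M, Lev W ∧ p ∈ W ∧
        Har E W O N (1 / ((n : ℝ) + 1)) := fun n =>
      not_forall.1 fun h => hcon ⟨_, by positivity, h⟩
    choose y hy using h
    obtain ⟨x, hx⟩ := hcc y
    obtain ⟨V, hV, -, hxV⟩ := exists_lev E p (isCompact_singleton (x := x))
    obtain ⟨V', hV', hp, hs⟩ := exists_lev E p (hV.2.2.insert q)
    obtain ⟨δ, hδ, hH⟩ := har_global (E := E) hV'.1 hO hV.2.2 fun z hz =>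
      ⟨V', hV'.2.1, Subset.rfl, hs (Or.inr hz), q, hs (Or.inl rfl), hq⟩
    obtain ⟨n, h1, h2⟩ := ((mapClusterPt_iff_frequently.1 hx V (hV.1.mem_nhds (hxV rfl))).and_eventually
      (tendsto_one_div_add_atTop_nhds_zero_nat.eventually (gt_mem_nhds hδ))).exists
    exact hy n ⟨V, hV.1.mem_nhds h1, V', hV', hp, hH.anti subset_closure h2.le⟩
  obtain ⟨t, ht, h⟩ := key
  refine ⟨t, ht, fun B hB => hB.induction_on
    (p := fun B => ∃ W : Set M, Lev W ∧ p ∈ W ∧ Har E W O B t) ?_ ?_ ?_ ?_⟩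
  · obtain ⟨V, hV, hp, -⟩ := exists_lev E p isCompact_empty
    exact ⟨V, hV, hp, fun u _ c s _ _ _ y hy => hy.elim⟩
  · rintro s s' hst ⟨W, hW, hp, hH⟩
    exact ⟨W, hW, hp, hH.anti hst le_rfl⟩
  · rintro s s' ⟨W, hW, hp, hH⟩ ⟨V, hV, hp', hH'⟩
    refine ⟨W ∪ V, hW.union hV hp hp', Or.inl hp, fun u hu c r hr hc hO y hy => ?_⟩
    rcases hy with hy | hy
    · exact hH.mono subset_union_left u hu c r hr hc hO y hy
    · exact hH'.mono subset_union_right u hu c r hr hc hO y hy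
  · intro x _
    obtain ⟨N, hN, h'⟩ := h x
    exact ⟨N, mem_nhdsWithin_of_mem_nhds hN, h'⟩

variable (E) in
omit [NormedSpace ℂ E] [T2Space M] in
include E in
theorem pi_base {A : Set M} (hA : Lev A) {p : M} (hp : p ∈ A) :
    ∃ O : ℕ → Set M, (∀ i, IsOpen (O i) ∧ (O i).Nonempty) ∧
      ∀ N : Set M, IsOpen N → N.Nonempty → N ⊆ A → ∃ i, O i ⊆ N := by
  obtain ⟨D, hD, hWD⟩ : IsSeparable A := (sep_of_compact E hA.2.2).mono subset_closure
  have hcg : ∀ d : M, (𝓝 d).IsCountablyGenerated := fun d => by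
    rw [← (chartAt E d).symm_map_nhds_eq (mem_chart_source E d)]
    infer_instance
  choose b hb using fun d : M => (𝓝 d).exists_antitone_basis
  have : Countable D := hD.to_subtype
  obtain ⟨d₀, -, hd₀⟩ := mem_closure_iff.1 (hWD hp) A hA.1 hp
  have : Nonempty D := ⟨⟨d₀, hd₀⟩⟩
  obtain ⟨e, he⟩ := exists_surjective_nat (D × ℕ)
  refine ⟨fun i => interior (b (e i).1 (e i).2), fun i => ⟨isOpen_interior, (e i).1,
    mem_interior_iff_mem_nhds.2 ((hb _).mem _)⟩, ?_⟩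
  rintro N hN ⟨x, hx⟩ hNA
  obtain ⟨d, hdN, hd⟩ := mem_closure_iff.1 (hWD (hNA hx)) N hN hx
  obtain ⟨k, hk⟩ := (hb d).mem_iff.1 (hN.mem_nhds hdN)
  obtain ⟨i, hi⟩ := he (⟨d, hd⟩, k)
  refine ⟨i, ?_⟩
  simp only [hi]
  exact interior_subset.trans hk

variable (E) in
theorem main_cc [ConnectedSpace M] (hcc : ∀ u : ℕ → M, ∃ x : M, MapClusterPt x atTop u)
    {K₀ : Set M} (hK₀ : IsSigmaCompact K₀) :
    ∃ W : Set M, IsOpen W ∧ IsConnected W ∧ IsSigmaCompact W ∧ K₀ ⊆ W ∧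
      ∀ u : M → ℝ, Psh E u W → BddAbove (u '' W) → ∀ x ∈ W, ∀ y ∈ W, u x = u y := by
  obtain ⟨p⟩ : Nonempty M := inferInstance
  obtain ⟨K, hK, rfl⟩ := hK₀
  obtain ⟨W₀, h₀, hp₀, -⟩ := exists_lev E p isCompact_empty
  let T : Type := {W : Set M // Lev W ∧ p ∈ W}
  choose O hO hOb using fun A : T => pi_base E A.2.1 A.2.2
  choose t ht hH using fun (A : T) (i : ℕ) => har_unif E hcc p (hO A i).1 (hO A i).2
  have hf : ∀ (i : ℕ) (A B : T), ∃ F : T, closure A.1 ⊆ F.1 ∧ K i ⊆ F.1 ∧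
      Har E F.1 (O A i) (closure B.1) (t A i) := by
    intro i A B
    obtain ⟨W, hW, -, h⟩ := hH A i _ B.2.1.2.2
    obtain ⟨F, hF, hp, hs⟩ := exists_lev E p ((A.2.1.2.2.union (hK i)).union hW.2.2)
    exact ⟨⟨F, hF, hp⟩, fun y hy => hs (Or.inl (Or.inl hy)), fun y hy => hs (Or.inl (Or.inr hy)),
      h.mono fun y hy => hs (Or.inr (subset_closure hy))⟩
  choose f hf1 hf2 hf3 using hf
  obtain ⟨S, hS, hS0, hSf⟩ := exists_closed' (⟨W₀, h₀, hp₀⟩ : T) f
  have : Countable S := hS.to_subtype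
  have hsub : ∀ A ∈ S, A.1 ⊆ ⋃ A : S, A.1.1 := fun A hA =>
    subset_iUnion (fun A : S => A.1.1) ⟨A, hA⟩
  have ho : IsOpen (⋃ A : S, A.1.1) := isOpen_iUnion fun A => A.1.2.1.1
  have he : (⋃ A : S, A.1.1) = ⋃ A : S, closure A.1.1 :=
    Subset.antisymm (iUnion_mono fun _ => subset_closure)
      (iUnion_subset fun A => (hf1 0 A.1 A.1).trans (hsub _ (hSf 0 _ A.2 _ A.2)))
  refine ⟨⋃ A : S, A.1.1, ho, ⟨⟨p, hsub _ hS0 hp₀⟩,
    isPreconnected_iUnion ⟨p, mem_iInter.2 fun A => A.1.2.2⟩ fun A => A.1.2.1.2.1⟩,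
    he ▸ isSigmaCompact_iUnion_of_isCompact _ fun A => A.1.2.1.2.2,
    iUnion_subset fun i => (hf2 i _ _).trans (hsub _ (hSf i _ hS0 _ hS0)), ?_⟩
  intro u hu hb
  suffices h : ∀ x ∈ ⋃ A : S, A.1.1, ∀ y ∈ ⋃ A : S, A.1.1, u y ≤ u x from
    fun x hx y hy => le_antisymm (h y hy x hx) (h x hx y hy)
  intro x hx y hy
  refine le_of_forall_gt_imp_ge_of_dense fun m hm => ?_
  have hev : ∀ᶠ z in 𝓝 x, u z < m := by
    have := (upperSemicontinuousWithinAt_iff.1 (hu.1 x hx)) m hm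
    rwa [ho.nhdsWithin_eq hx] at this
  obtain ⟨A, hA⟩ := mem_iUnion.1 hx
  obtain ⟨N, hN, hNo, hxN⟩ := mem_nhds_iff.1 (inter_mem hev (A.1.2.1.1.mem_nhds hA))
  obtain ⟨i, hi⟩ := hOb A.1 N hNo ⟨x, hxN⟩ fun z hz => (hN hz).2
  have hc : ∀ z ∈ ⋃ A : S, A.1.1, u z ≤ sSup (u '' ⋃ A : S, A.1.1) := fun z hz =>
    le_csSup hb (mem_image_of_mem u hz)
  refine (hc y hy).trans (not_lt.1 fun hlt => ?_)
  set c := sSup (u '' ⋃ A : S, A.1.1) with hcd
  have h1 : c ≤ c - t A.1 i * (c - m) := by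
    refine csSup_le ⟨_, mem_image_of_mem u hx⟩ ?_
    rintro _ ⟨z, hz, rfl⟩
    obtain ⟨B, hB⟩ := mem_iUnion.1 hz
    exact (hf3 i A.1 B.1).mono (hsub _ (hSf i _ A.2 _ B.2)) u hu c (c - m) (by linarith) hc
      (fun w hw => by
        have : u w < m := (hN (hi hw)).1
        linarith) z (subset_closure hB)
  have := mul_pos (ht A.1 i) (sub_pos.2 hlt)
  linarith

variable (E) in
theorem main_all [ConnectedSpace M] (hcc : ∀ u : ℕ → M, ∃ x : M, MapClusterPt x atTop u)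
    {K₀ : Set M} (hK₀ : IsSigmaCompact K₀) :
    ∃ W : Set M, IsOpen W ∧ IsConnected W ∧ IsSigmaCompact W ∧ K₀ ⊆ W ∧
      (∀ u : M → ℝ, Psh E u W → BddAbove (u '' W) → ∀ x ∈ W, ∀ y ∈ W, u x = u y) ∧
      ((∀ A : Set M, A.Countable → IsCompact (closure A)) → IsCompact (closure W) ∧
        (∀ u : M → ℝ, Psh E u W → ∀ x ∈ W, ∀ y ∈ W, u x = u y) ∧
        ∀ K : Set M, IsCompact K → K ⊆ W → ∃ K' : Set M, IsCompact K' ∧ K ⊆ K' ∧ K' ⊆ W ∧
          ∀ u : M → ℝ, Psh E u (W \ K) → ∀ x ∈ W \ K', ∀ᶠ y in 𝓝 x, u y = u x) := by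
  by_cases hω : ∀ A : Set M, A.Countable → IsCompact (closure A)
  · obtain ⟨K, hK, rfl⟩ := hK₀
    obtain ⟨W, h1, h2, h3, h4, h5, h6, h7⟩ := main E hω (compact_closure_iUnion E hω hK)
    exact ⟨W, h1, h2, h3, subset_closure.trans h4, fun u hu _ => h6 u hu, fun _ => ⟨h5, h6, h7⟩⟩
  · obtain ⟨W, h1, h2, h3, h4, h5⟩ := main_cc E hcc hK₀
    exact ⟨W, h1, h2, h3, h4, h5, fun h => (hω h).elim⟩

end Pool.Agent.FS.LiouvilleLevels
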