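import Mathlib

open Filter Topology

namespace Pool.Agent.FS.LiouvilleLevels

/-- The real-valued function `u` is plurisubharmonic on `W`: it is upper semicontinuous on `W`,
and in every preferred chart, at every point `a` over `W` and in every direction `v`, its value at
`a` is at most its mean value over the circle `a + t v`, `|t| = r`, for all small `r > 0`. -/
def Psh (E : Type) [NormedAddCommGroup E] [NormedSpace ℂ E] {M : Type} [TopologicalSpace M]
    [ChartedSpace E M] (u : M → ℝ) (W : Set M) : Prop :=
  UpperSemicontinuousOn u W ∧
    ∀ (x : M), ∀ a ∈ (chartAt E x).target, (chartAt E x).symm a ∈ W → ∀ v : E,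
      ∀ᶠ r in 𝓝[>] (0 : ℝ),
        CircleIntegrable (fun t : ℂ => u ((chartAt E x).symm (a + t • v))) 0 r ∧
          u ((chartAt E x).symm a) ≤
            Real.circleAverage (fun t : ℂ => u ((chartAt E x).symm (a + t • v))) 0 r

end Pool.Agent.FS.LiouvilleLevels
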