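import Pool.Agent.FS.LiouvilleLevels.Defs

open Set Filter Topology Metric Real MeasureTheory

namespace Pool.Agent.FS.LiouvilleLevels

theorem avg_sq (a : ℂ) (r : ℝ) :
    circleAverage (fun t : ℂ => ‖a + t‖ ^ 2) 0 r = ‖a‖ ^ 2 + r ^ 2 := by
  have hp : (2 * π) ≠ 0 := by positivity
  have e : ∀ θ : ℝ, ‖a + circleMap 0 r θ‖ ^ 2
      = (‖a‖ ^ 2 + r ^ 2) + (2 * a.re * r) * cos θ + (2 * a.im * r) * sin θ := by
    intro θ
    rw [Complex.sq_norm, Complex.sq_norm, Complex.normSq_apply, Complex.normSq_apply,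
      circleMap_zero]
    simp only [Complex.add_re, Complex.add_im, Complex.re_ofReal_mul, Complex.im_ofReal_mul,
      Complex.exp_ofReal_mul_I_re, Complex.exp_ofReal_mul_I_im]
    linear_combination r ^ 2 * sin_sq_add_cos_sq θ
  rw [circleAverage_def]
  simp_rw [e]
  rw [intervalIntegral.integral_add, intervalIntegral.integral_add]
  · simp only [intervalIntegral.integral_const, intervalIntegral.integral_const_mul,
      integral_cos, integral_sin, sin_two_pi, sin_zero, cos_two_pi, cos_zero, smul_eq_mul]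
    field_simp
    ring
  all_goals exact Continuous.intervalIntegrable (by fun_prop) _ _

theorem avg_log {a : ℂ} {r : ℝ} (h0 : 0 < r) (h : r < ‖a‖) :
    circleAverage (fun t : ℂ => log ‖a + t‖) 0 r = log ‖a‖ := by
  have e : (fun t : ℂ => log ‖a + t‖) = (log ‖· - -a‖) := by
    funext t
    rw [sub_neg_eq_add, add_comm]
  have h1 : 1 ≤ r⁻¹ * ‖a‖ := by
    rw [le_inv_mul_iff₀ h0]
    linarith
  rw [e, circleAverage_log_norm_sub_const_eq_log_radius_add_posLog h0.ne', zero_sub, neg_neg,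
    posLog_eq_log (by rwa [abs_of_nonneg (by positivity)]),
    log_mul (by positivity) (by linarith), log_inv]
  ring

theorem annulus (G : ℂ → ℝ) {ρ R c s : ℝ} (h0 : 0 < ρ) (hR : ρ < R) (hs0 : 0 ≤ s)
    (husc : UpperSemicontinuousOn G (closedBall 0 R))
    (hsub : ∀ a : ℂ, ‖a‖ < R → ∀ᶠ r in 𝓝[>] (0 : ℝ),
      CircleIntegrable (fun t => G (a + t)) 0 r ∧ G a ≤ circleAverage (fun t => G (a + t)) 0 r)
    (hc : ∀ t : ℂ, ‖t‖ ≤ R → G t ≤ c) (hs : ∀ t : ℂ, ‖t‖ ≤ ρ → G t ≤ c - s) :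
    ∀ t : ℂ, ρ ≤ ‖t‖ → ‖t‖ ≤ R → G t ≤ c - s / (log R - log ρ) * (log R - log ‖t‖) := by
  intro t ht1 ht2
  have hL : 0 < log R - log ρ := sub_pos.2 (log_lt_log h0 hR)
  set l := s / (log R - log ρ) with hl
  have hl0 : 0 ≤ l := by positivity
  have hls : l * (log R - log ρ) = s := by rw [hl]; field_simp
  have hR0 : 0 < R := h0.trans hR
  refine le_of_forall_pos_le_add fun ε' hε' => ?_
  set ε := ε' / R ^ 2 with hεd
  have hε : 0 < ε := by positivity
  have hεR : ε * R ^ 2 = ε' := by rw [hεd]; field_simp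
  let A : Set ℂ := closedBall 0 R \ ball 0 ρ
  have hA : IsCompact A := (isCompact_closedBall 0 R).diff isOpen_ball
  have memA : ∀ z : ℂ, z ∈ A ↔ ‖z‖ ≤ R ∧ ρ ≤ ‖z‖ := fun z => by simp [A]
  let F : ℂ → ℝ := fun z => G z + (ε * ‖z‖ ^ 2 - l * log ‖z‖)
  have hF : UpperSemicontinuousOn F A := by
    refine (husc.mono sdiff_subset).add (ContinuousOn.upperSemicontinuousOn ?_)
    refine ContinuousOn.sub (by fun_prop) (continuousOn_const.mul ?_)
    exact continuousOn_id.norm.log fun z hz => (h0.trans_le ((memA z).1 hz).2).ne'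
  obtain ⟨a, haA, hmax⟩ := hF.exists_isMaxOn ⟨t, (memA t).2 ⟨ht2, ht1⟩⟩ hA
  obtain ⟨ha1, ha2⟩ := (memA a).1 haA
  have key : F a ≤ c - l * log R + ε' := by
    rcases ha1.eq_or_lt with h | h
    · have := hc a ha1
      simp only [F, h]
      linarith
    rcases ha2.eq_or_lt with h' | h'
    · have := hs a h'.ge
      have h3 : ε * ρ ^ 2 ≤ ε * R ^ 2 := by gcongr
      simp only [F, ← h']
      linarith
    exfalso
    have hev : ∀ᶠ r in 𝓝[>] (0 : ℝ), r < min (R - ‖a‖) (‖a‖ - ρ) :=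
      mem_nhdsWithin_of_mem_nhds (Iio_mem_nhds (lt_min (by linarith) (by linarith)))
    obtain ⟨r, ⟨⟨hi, hle⟩, hr⟩, hr0⟩ :=
      (((hsub a h).and hev).and self_mem_nhdsWithin).exists
    have hr0 : 0 < r := hr0
    have hr1 := (lt_min_iff.1 hr).1
    have hr2 := (lt_min_iff.1 hr).2
    have i2 : CircleIntegrable (fun t : ℂ => ε • ‖a + t‖ ^ 2) 0 r :=
      Continuous.intervalIntegrable (by fun_prop) _ _
    have i3 : CircleIntegrable (fun t : ℂ => l • log ‖a + t‖) 0 r := by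
      have := (circleIntegrable_log_norm_sub_const (a := -a) (c := 0) r).const_smul (a := l)
      refine (this : CircleIntegrable (fun t : ℂ => l • log ‖t - -a‖) 0 r).congr_codiscreteWithin ?_
      exact Eventually.of_forall fun t => by simp [add_comm]
    have hav : circleAverage (fun t : ℂ => F (a + t)) 0 r ≤ F a := by
      refine circleAverage_mono_on_of_le_circle (hi.add (i2.sub i3)) fun z hz => hmax ?_
      have hz' : ‖z‖ = r := by simpa [abs_of_pos hr0] using hz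
      have := norm_add_le a z
      have := norm_sub_le (a + z) z
      rw [add_sub_cancel_right] at this
      exact (memA _).2 ⟨by linarith, by linarith⟩
    have hsplit : circleAverage (fun t : ℂ => F (a + t)) 0 r
        = circleAverage (fun t => G (a + t)) 0 r + (ε * (‖a‖ ^ 2 + r ^ 2) - l * log ‖a‖) := by
      have := circleAverage_fun_add hi (i2.sub i3)
      rw [← avg_sq, ← avg_log hr0 (by linarith), ← smul_eq_mul, ← smul_eq_mul,
        ← circleAverage_fun_smul, ← circleAverage_fun_smul, ← circleAverage_sub i2 i3, ← this]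
      rfl
    have : 0 < ε * r ^ 2 := by positivity
    simp only [F] at hav hsplit
    nlinarith
  have h1 : F t ≤ F a := hmax ((memA t).2 ⟨ht2, ht1⟩)
  have h2 : 0 ≤ ε * ‖t‖ ^ 2 := by positivity
  simp only [F] at h1 key
  nlinarith

variable {E : Type} [NormedAddCommGroup E] [NormedSpace ℂ E] {M : Type} [TopologicalSpace M]
  [ChartedSpace E M]

theorem Psh.mono {u : M → ℝ} {W W' : Set M} (h : Psh E u W') (hW : W ⊆ W') : Psh E u W :=
  ⟨h.1.mono hW, fun x a ha hw v => h.2 x a ha (hW hw) v⟩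

variable (E) in
/-- Harnack property with constant `θ`. -/
def Har (W O K : Set M) (θ : ℝ) : Prop :=
  ∀ u : M → ℝ, Psh E u W → ∀ c s : ℝ, 0 ≤ s → (∀ y ∈ W, u y ≤ c) → (∀ y ∈ O, u y ≤ c - s) →
    ∀ y ∈ K, u y ≤ c - θ * s

theorem Har.mono {W W' O K : Set M} {θ : ℝ} (h : Har E W O K θ) (hW : W ⊆ W') :
    Har E W' O K θ :=
  fun u hu c s hs hc hO => h u (hu.mono hW) c s hs (fun y hy => hc y (hW hy)) hO

theorem Har.anti {W O K K' : Set M} {θ θ' : ℝ} (h : Har E W O K θ) (hK : K' ⊆ K) (hθ : θ' ≤ θ) :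
    Har E W O K' θ' := fun u hu c s hs hc hO y hy =>
  (h u hu c s hs hc hO y (hK hy)).trans (by nlinarith)

theorem Har.trans {W O O' N K : Set M} {θ θ' : ℝ} (h : Har E W O N θ) (h' : Har E W O' K θ')
    (hO : O' ⊆ N) (hθ : 0 ≤ θ) : Har E W O K (θ' * θ) := by
  intro u hu c s hs hc hOs y hy
  have := h' u hu c (θ * s) (by positivity) hc (fun z hz => h u hu c s hs hc hOs z (hO hz)) y hy
  rwa [mul_assoc]

theorem Har.improve {W W' O B : Set M} {θ δ : ℝ} (h : Har E W O B θ) (h' : Har E W' O W δ)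
    (hW : W ⊆ W') (hδ : δ ≤ 1) : Har E W' O B (δ + θ * (1 - δ)) := by
  intro u hu c s hs hc hO y hy
  have := h u (hu.mono hW) (c - δ * s) ((1 - δ) * s) (mul_nonneg (by linarith) hs)
    (h' u hu c s hs hc hO) (fun z hz => by have := hO z hz; linarith) y hy
  linarith

theorem har_local {W : Set M} (hW : IsOpen W) {x : M} (hx : x ∈ W) :
    ∃ V ∈ 𝓝 x, ∀ O : Set M, IsOpen O → (O ∩ V).Nonempty → ∃ θ : ℝ, 0 < θ ∧ Har E W O V θ := by
  set φ := chartAt E x with hφ
  have hxs : x ∈ φ.source := mem_chart_source E x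
  have ho : ∀ A : Set M, IsOpen A → IsOpen (φ.target ∩ φ.symm ⁻¹' A) :=
    fun A hA => φ.isOpen_inter_preimage_symm hA
  obtain ⟨R, hR, hb⟩ := Metric.isOpen_iff.1 (ho W hW) (φ x)
    ⟨φ.map_source hxs, by simpa [φ.left_inv hxs] using hx⟩
  set r := R / 5 with hr
  have hr0 : 0 < r := by positivity
  refine ⟨φ.source ∩ φ ⁻¹' ball (φ x) r,
    (φ.isOpen_inter_preimage isOpen_ball).mem_nhds ⟨hxs, mem_ball_self hr0⟩, ?_⟩
  rintro O hO ⟨z, hzO, hzs, hzb⟩
  obtain ⟨ρ', hρ', hb'⟩ := Metric.isOpen_iff.1 (ho O hO) (φ z)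
    ⟨φ.map_source hzs, by simpa [φ.left_inv hzs] using hzO⟩
  set ρ := min (ρ' / 2) r with hρ
  have hρ0 : 0 < ρ := lt_min (by positivity) hr0
  have hρr : ρ ≤ r := min_le_right _ _
  have hρ1 : ρ < ρ' := (min_le_left _ _).trans_lt (by linarith)
  have hL : 0 < log (3 * r) - log ρ := sub_pos.2 (log_lt_log hρ0 (by linarith))
  have hL' : 0 < log (3 * r) - log (2 * r) := sub_pos.2 (log_lt_log (by linarith) (by linarith))
  have hL'' : log ρ ≤ log (2 * r) := log_le_log hρ0 (by linarith)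
  refine ⟨(log (3 * r) - log (2 * r)) / (log (3 * r) - log ρ), by positivity, ?_⟩
  rintro u hu c s hs hc hOs y ⟨hys, hyb⟩
  have hzb' : ‖φ z - φ x‖ < r := by simpa [dist_eq_norm] using hzb
  have hyb' : ‖φ y - φ x‖ < r := by simpa [dist_eq_norm] using hyb
  have hv : ‖φ y - φ z‖ < 2 * r := by
    have := norm_sub_le (φ y - φ x) (φ z - φ x)
    rw [sub_sub_sub_cancel_right] at this
    linarith
  obtain ⟨v, hv1, hvy⟩ : ∃ v : E, ‖v‖ ≤ 1 ∧ φ z + ((‖φ y - φ z‖ : ℝ) : ℂ) • v = φ y := by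
    by_cases h : φ y - φ z = 0
    · exact ⟨0, by simp, by simp [sub_eq_zero.1 h]⟩
    · have h' : ((‖φ y - φ z‖ : ℝ) : ℂ) ≠ 0 := by simpa using h
      refine ⟨((‖φ y - φ z‖ : ℝ) : ℂ)⁻¹ • (φ y - φ z), ?_, ?_⟩
      · rw [norm_smul, norm_inv, Complex.norm_real, norm_norm,
          inv_mul_cancel₀ (norm_ne_zero_iff.2 h)]
      · rw [smul_inv_smul₀ h', add_sub_cancel]
  have hn : ∀ t : ℂ, ‖t • v‖ ≤ ‖t‖ := fun t => by
    rw [norm_smul]
    exact mul_le_of_le_one_right (norm_nonneg _) hv1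
  have hd : ∀ t : ℂ, ‖t‖ ≤ 3 * r → φ z + t • v ∈ φ.target ∧ φ.symm (φ z + t • v) ∈ W := by
    intro t ht
    apply hb
    rw [mem_ball, dist_eq_norm]
    have e : φ z + t • v - φ x = (φ z - φ x) + t • v := by abel
    rw [e]
    refine (norm_add_le _ _).trans_lt ?_
    have := hn t
    linarith
  have hs' : ∀ t : ℂ, ‖t‖ ≤ ρ → u (φ.symm (φ z + t • v)) ≤ c - s := by
    intro t ht
    refine hOs _ (hb' ?_).2
    rw [mem_ball, dist_eq_norm, add_sub_cancel_left]
    exact ((hn t).trans ht).trans_lt hρ1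
  have hnt : ‖((‖φ y - φ z‖ : ℝ) : ℂ)‖ = ‖φ y - φ z‖ := by simp
  have hθ1 : (log (3 * r) - log (2 * r)) / (log (3 * r) - log ρ) ≤ 1 := by
    rw [div_le_one hL]
    linarith
  rcases le_total ‖φ y - φ z‖ ρ with h | h
  · have := hs' _ (hnt.trans_le h)
    rw [hvy, φ.left_inv hys] at this
    nlinarith
  have husc : UpperSemicontinuousOn (fun t : ℂ => u (φ.symm (φ z + t • v)))
      (closedBall 0 (3 * r)) := by
    refine hu.1.comp (g := fun t : ℂ => φ.symm (φ z + t • v)) ?_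
      fun t ht => (hd t (by simpa using ht)).2
    exact φ.continuousOn_symm.comp (by fun_prop) fun t ht => (hd t (by simpa using ht)).1
  have := annulus (fun t : ℂ => u (φ.symm (φ z + t • v))) hρ0 (by linarith : ρ < 3 * r) hs husc
    (fun a ha => by
      have := hu.2 x (φ z + a • v) (hd a ha.le).1 (hd a ha.le).2 v
      simpa only [add_smul, add_assoc] using this)
    (fun t ht => hc _ (hd t ht).2) hs' _ (h.trans hnt.ge) (by rw [hnt]; linarith)
  simp only [hvy, φ.left_inv hys, hnt] at this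
  refine this.trans ?_
  have h3 : log ‖φ y - φ z‖ ≤ log (2 * r) := log_le_log (hρ0.trans_le h) hv.le
  have h4 : 0 ≤ s / (log (3 * r) - log ρ) := by positivity
  have h5 : (log (3 * r) - log (2 * r)) / (log (3 * r) - log ρ) * s
      = s / (log (3 * r) - log ρ) * (log (3 * r) - log (2 * r)) := by ring
  rw [h5]
  nlinarith

theorem har_global {W O K : Set M} (hW : IsOpen W) (hO : IsOpen O) (hK : IsCompact K)
    (hc : ∀ x ∈ K, ∃ C : Set M, IsPreconnected C ∧ C ⊆ W ∧ x ∈ C ∧ (C ∩ O).Nonempty) :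
    ∃ θ : ℝ, 0 < θ ∧ Har E W O K θ := by
  let G : Set M := {x | ∃ N ∈ 𝓝 x, ∃ θ : ℝ, 0 < θ ∧ Har E W O N θ}
  have hG : IsOpen G := by
    rw [isOpen_iff_mem_nhds]
    rintro x ⟨N, hN, h⟩
    filter_upwards [eventually_mem_nhds_iff.2 hN] with y hy
    exact ⟨N, hy, h⟩
  have hKG : K ⊆ G := by
    intro x hx
    obtain ⟨C, hC, hCW, hxC, z, hzC, hzO⟩ := hc x hx
    refine hC.subset_of_closure_inter_subset hG ?_ ?_ hxC
    · exact ⟨z, hzC, O, hO.mem_nhds hzO, 1, one_pos, fun u _ c s _ _ h y hy => by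
        simpa using h y hy⟩
    · rintro x ⟨hxc, hxW⟩
      obtain ⟨V, hV, hl⟩ := har_local (E := E) hW (hCW hxW)
      obtain ⟨z, hzV, N, hN, θ, hθ, h⟩ := mem_closure_iff_nhds.1 hxc V hV
      obtain ⟨θ', hθ', h'⟩ := hl (interior N) isOpen_interior
        ⟨z, mem_interior_iff_mem_nhds.2 hN, hzV⟩
      exact ⟨V, hV, θ' * θ, by positivity, h.trans h' interior_subset hθ.le⟩
  refine hK.induction_on (p := fun K => ∃ θ : ℝ, 0 < θ ∧ Har E W O K θ) ?_ ?_ ?_ ?_
  · exact ⟨1, one_pos, fun u _ c s _ _ _ y hy => hy.elim⟩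
  · rintro s t hst ⟨θ, hθ, h⟩
    exact ⟨θ, hθ, h.anti hst le_rfl⟩
  · rintro s t ⟨θ, hθ, h⟩ ⟨θ', hθ', h'⟩
    refine ⟨min θ θ', lt_min hθ hθ', fun u hu c s hs hc hO y hy => ?_⟩
    rcases hy with hy | hy
    · exact h.anti Subset.rfl (min_le_left _ _) u hu c s hs hc hO y hy
    · exact h'.anti Subset.rfl (min_le_right _ _) u hu c s hs hc hO y hy
  · intro x hx
    obtain ⟨N, hN, h⟩ := hKG hx
    exact ⟨N, mem_nhdsWithin_of_mem_nhds hN, h⟩

/-- Maximum principle. -/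
theorem Psh.eventually_eq {u : M → ℝ} {W : Set M} (hu : Psh E u W) (hW : IsOpen W) {x : M}
    (hx : x ∈ W) (hm : ∀ y ∈ W, u y ≤ u x) : ∀ᶠ y in 𝓝 x, u y = u x := by
  obtain ⟨V, hV, hl⟩ := har_local (E := E) hW hx
  filter_upwards [hV, hW.mem_nhds hx] with y hyV hyW
  refine le_antisymm (hm y hyW) (le_of_forall_gt_imp_ge_of_dense fun m h => ?_)
  by_contra hlt
  rw [not_le] at hlt
  have hev : ∀ᶠ z in 𝓝 y, u z < m := by
    have := (upperSemicontinuousWithinAt_iff.1 (hu.1 y hyW)) m h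
    rwa [hW.nhdsWithin_eq hyW] at this
  obtain ⟨N, hN, hNo, hyN⟩ := mem_nhds_iff.1 hev
  obtain ⟨θ, hθ, hH⟩ := hl N hNo ⟨y, hyN, hyV⟩
  have := hH u hu (u x) (u x - m) (by linarith) hm
    (fun z hz => by have : u z < m := hN hz; linarith) x (mem_of_mem_nhds hV)
  nlinarith

theorem psh_const (c : ℝ) (W : Set M) : Psh E (fun _ => c) W :=
  ⟨upperSemicontinuousOn_const, fun _ _ _ _ _ => Eventually.of_forall fun r =>
    ⟨circleIntegrable_const c 0 r, (circleAverage_const c 0 r).ge⟩⟩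

theorem Psh.max {u : M → ℝ} {W : Set M} (hu : Psh E u W) (c : ℝ) :
    Psh E (fun y => max (u y) c) W := by
  refine ⟨hu.1.sup upperSemicontinuousOn_const, fun x a ha hw v => ?_⟩
  filter_upwards [hu.2 x a ha hw v] with r hr
  have hi : CircleIntegrable (fun t : ℂ => Max.max (u ((chartAt E x).symm (a + t • v))) c) 0 r :=
    ⟨hr.1.1.sup (circleIntegrable_const c 0 r).1, hr.1.2.sup (circleIntegrable_const c 0 r).2⟩
  refine ⟨hi, max_le (hr.2.trans (circleAverage_mono hr.1 hi fun _ _ => le_max_left _ _)) ?_⟩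
  exact (circleAverage_const c 0 r).ge.trans
    (circleAverage_mono (circleIntegrable_const c 0 r) hi fun _ _ => le_max_right _ _)

theorem psh_of_local {u : M → ℝ} {W : Set M}
    (h : ∀ y ∈ W, ∃ (u' : M → ℝ) (W' : Set M), Psh E u' W' ∧ W' ∈ 𝓝 y ∧ u' =ᶠ[𝓝 y] u) :
    Psh E u W := by
  refine ⟨fun y hy => ?_, fun x a ha hw v => ?_⟩
  · obtain ⟨u', W', hu', hW', he⟩ := h y hy
    refine upperSemicontinuousWithinAt_iff.2 fun m hm => ?_
    have := (upperSemicontinuousWithinAt_iff.1 (hu'.1 y (mem_of_mem_nhds hW'))) m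
      (he.eq_of_nhds ▸ hm)
    rw [nhdsWithin_eq_nhds.2 hW'] at this
    refine mem_nhdsWithin_of_mem_nhds ?_
    filter_upwards [this, he] with z h1 h2
    exact h2 ▸ h1
  · obtain ⟨u', W', hu', hW', he⟩ := h _ hw
    have hc : Tendsto (fun t : ℂ => (chartAt E x).symm (a + t • v)) (𝓝 0)
        (𝓝 ((chartAt E x).symm a)) := by
      refine ((chartAt E x).continuousAt_symm ha).tendsto.comp ?_
      exact Continuous.tendsto' (by fun_prop) _ _ (by simp)
    obtain ⟨ε, hε, hb⟩ := Metric.eventually_nhds_iff.1 (hc.eventually he)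
    have hev : ∀ᶠ r in 𝓝[>] (0 : ℝ), r < ε := mem_nhdsWithin_of_mem_nhds (Iio_mem_nhds hε)
    filter_upwards [hu'.2 x a ha (mem_of_mem_nhds hW') v, hev, self_mem_nhdsWithin]
      with r hr h1 h2
    have h2 : 0 < r := h2
    have e : (fun θ : ℝ => u' ((chartAt E x).symm (a + circleMap 0 r θ • v)))
        = fun θ : ℝ => u ((chartAt E x).symm (a + circleMap 0 r θ • v)) :=
      funext fun θ => hb (by simpa [abs_of_pos h2] using h1)
    rw [circleIntegrable_def, circleAverage_def] at hr ⊢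
    rw [← e, ← he.eq_of_nhds]
    exact hr

end Pool.Agent.FS.LiouvilleLevels
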