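import Pool.Agent.FS.LiouvilleLevels.Harnack

open Set Filter Topology Metric TopologicalSpace

namespace Pool.Agent.FS.LiouvilleLevels

variable {E : Type} [NormedAddCommGroup E] [NormedSpace ℂ E] [ProperSpace E] {M : Type}
  [TopologicalSpace M] [ChartedSpace E M] [T2Space M]

/-- Open, preconnected, relatively compact. -/
def Lev (W : Set M) : Prop := IsOpen W ∧ IsPreconnected W ∧ IsCompact (closure W)

omit [T2Space M] in
theorem Lev.union {W V : Set M} (hW : Lev W) (hV : Lev V) {z : M} (h1 : z ∈ W) (h2 : z ∈ V) :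
    Lev (W ∪ V) :=
  ⟨hW.1.union hV.1, hW.2.1.union z h1 h2 hV.2.1, by rw [closure_union]; exact hW.2.2.union hV.2.2⟩

variable (E) in
omit [NormedSpace ℂ E] [T2Space M] in
include E in
theorem sep_of_compact {K : Set M} (hK : IsCompact K) : IsSeparable K := by
  refine hK.induction_on (p := fun K => IsSeparable K) countable_empty.isSeparable
    (fun s t hst ht => ht.mono hst) (fun s t hs ht => hs.union ht) ?_
  intro x _
  refine ⟨(chartAt E x).source, mem_nhdsWithin_of_mem_nhds (chart_source_mem_nhds E x), ?_⟩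
  rw [← (chartAt E x).symm_image_target_eq_source]
  exact (chartAt E x).continuousOn_symm.isSeparable_image (IsSeparable.of_separableSpace _)

variable (E) in
omit [NormedSpace ℂ E] [T2Space M] in
include E in
theorem compact_closure_iUnion (hω : ∀ A : Set M, A.Countable → IsCompact (closure A)) {ι : Type}
    [Countable ι] {K : ι → Set M} (h : ∀ i, IsCompact (K i)) : IsCompact (closure (⋃ i, K i)) := by
  obtain ⟨A, hA, hs⟩ : IsSeparable (⋃ i, K i) :=
    IsSeparable.iUnion fun i => sep_of_compact E (h i)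
  exact (hω A hA).of_isClosed_subset isClosed_closure (closure_minimal hs isClosed_closure)

variable (E) in
omit [NormedSpace ℂ E] [T2Space M] in
include E in
theorem Lev.iUnion (hω : ∀ A : Set M, A.Countable → IsCompact (closure A)) {ι : Type}
    [Countable ι] {W : ι → Set M} (h : ∀ i, Lev (W i)) {p : M} (hp : ∀ i, p ∈ W i) :
    Lev (⋃ i, W i) :=
  ⟨isOpen_iUnion fun i => (h i).1,
    isPreconnected_iUnion ⟨p, mem_iInter.2 hp⟩ fun i => (h i).2.1,
    (compact_closure_iUnion E hω fun i => (h i).2.2).of_isClosed_subset isClosed_closure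
      (closure_mono (iUnion_mono fun _ => subset_closure))⟩

variable (E) in
omit [ProperSpace E] [T2Space M] in
include E in
theorem locConn : LocallyConnectedSpace M := by
  have : NormedSpace ℝ E := NormedSpace.restrictScalars ℝ ℂ E
  exact ChartedSpace.locallyConnectedSpace E M

variable (E) in
include E in
theorem exists_lev_in {D : Set M} (hD : IsOpen D) (hDc : IsPreconnected D) {p : M} (hpD : p ∈ D)
    {K : Set M} (hK : IsCompact K) (hKD : K ⊆ D) :
    ∃ W : Set M, Lev W ∧ W ⊆ D ∧ p ∈ W ∧ K ⊆ W := by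
  have := ChartedSpace.locallyCompactSpace E M
  have : LocallyConnectedSpace M := locConn E
  have loc : ∀ x ∈ D, ∃ V : Set M, Lev V ∧ V ⊆ D ∧ x ∈ V := by
    intro x hxD
    obtain ⟨C, hC, hx⟩ := exists_compact_mem_nhds x
    obtain ⟨V, ⟨hVo, hxV, hVc⟩, hVC⟩ :=
      (LocallyConnectedSpace.open_connected_basis x).mem_iff.1 (inter_mem hx (hD.mem_nhds hxD))
    exact ⟨V, ⟨hVo, hVc.isPreconnected, hC.of_isClosed_subset isClosed_closure
      (closure_minimal (fun y hy => (hVC hy).1) hC.isClosed)⟩, fun y hy => (hVC hy).2, hxV⟩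
  let S : Set M := {x | ∃ W : Set M, Lev W ∧ W ⊆ D ∧ p ∈ W ∧ x ∈ W}
  have hS : IsOpen S := by
    rw [isOpen_iff_mem_nhds]
    rintro x ⟨W, hW, hWD, hp, hx⟩
    exact mem_of_superset (hW.1.mem_nhds hx) fun y hy => ⟨W, hW, hWD, hp, hy⟩
  have hall : D ⊆ S := by
    refine hDc.subset_of_closure_inter_subset hS ?_ ?_
    · obtain ⟨V, hV, hVD, hp⟩ := loc p hpD
      exact ⟨p, hpD, V, hV, hVD, hp, hp⟩
    · rintro x ⟨hx, hxD⟩
      obtain ⟨V, hV, hVD, hxV⟩ := loc x hxD
      obtain ⟨z, hzV, W, hW, hWD, hp, hz⟩ := mem_closure_iff.1 hx V hV.1 hxV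
      exact ⟨W ∪ V, hW.union hV hz hzV, union_subset hWD hVD, Or.inl hp, Or.inr hxV⟩
  refine hK.induction_on (p := fun K => ∃ W : Set M, Lev W ∧ W ⊆ D ∧ p ∈ W ∧ K ⊆ W) ?_ ?_ ?_ ?_
  · obtain ⟨V, hV, hVD, hp⟩ := loc p hpD
    exact ⟨V, hV, hVD, hp, empty_subset _⟩
  · rintro s t hst ⟨W, hW, hWD, hp, h⟩
    exact ⟨W, hW, hWD, hp, hst.trans h⟩
  · rintro s t ⟨W, hW, hWD, hp, h⟩ ⟨V, hV, hVD, hp', h'⟩
    exact ⟨W ∪ V, hW.union hV hp hp', union_subset hWD hVD, Or.inl hp, union_subset_union h h'⟩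
  · intro x hx
    obtain ⟨W, hW, hWD, hp, hx⟩ := hall (hKD hx)
    exact ⟨W, mem_nhdsWithin_of_mem_nhds (hW.1.mem_nhds hx), W, hW, hWD, hp, Subset.rfl⟩

variable (E) in
include E in
theorem exists_lev [ConnectedSpace M] (p : M) {K : Set M} (hK : IsCompact K) :
    ∃ W : Set M, Lev W ∧ p ∈ W ∧ K ⊆ W := by
  obtain ⟨W, h1, -, h2, h3⟩ :=
    exists_lev_in E isOpen_univ isPreconnected_univ (mem_univ p) hK (subset_univ _)
  exact ⟨W, h1, h2, h3⟩

variable (E) in
theorem har_one [ConnectedSpace M] (hω : ∀ A : Set M, A.Countable → IsCompact (closure A))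
    {O B : Set M} (hO : IsOpen O) (hB : IsCompact B) {p : M} (hpO : p ∈ O) (hpB : p ∈ B) :
    ∃ W : Set M, Lev W ∧ B ⊆ W ∧ Har E W O B 1 := by
  let A : Set ℝ := {θ | θ ≤ 1 ∧ ∃ W : Set M, Lev W ∧ B ⊆ W ∧ Har E W O B θ}
  have hne : A.Nonempty := by
    obtain ⟨W, hW, -, hBW⟩ := exists_lev E p hB
    exact ⟨0, zero_le_one, W, hW, hBW, fun u _ c s _ hc _ y hy => by simpa using hc y (hBW hy)⟩
  have hbd : BddAbove A := ⟨1, fun θ h => h.1⟩
  obtain ⟨a, -, ha, haA⟩ := exists_seq_tendsto_sSup hne hbd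
  choose W hW hBW hH using fun n => (haA n).2
  have hU : Lev (⋃ n, W n) := Lev.iUnion E hω hW fun n => hBW n hpB
  have hBU : B ⊆ ⋃ n, W n := (hBW 0).trans (subset_iUnion W 0)
  have hHU : Har E (⋃ n, W n) O B (sSup A) := by
    intro u hu c s hs hc hOs y hy
    refine ge_of_tendsto' ((ha.mul_const s).const_sub c) fun n => ?_
    exact (hH n).mono (subset_iUnion W n) u hu c s hs hc hOs y hy
  obtain ⟨W', hW', hp', hsub⟩ := exists_lev E p hU.2.2
  obtain ⟨δ, hδ, hg⟩ := har_global (E := E) hW'.1 hO hU.2.2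
    fun x hx => ⟨W', hW'.2.1, Subset.rfl, hsub hx, p, hp', hpO⟩
  have ht : sSup A ≤ 1 := csSup_le hne fun θ h => h.1
  have hm : 0 < min δ 1 := lt_min hδ one_pos
  have hm1 : min δ 1 ≤ 1 := min_le_right _ _
  have hi := hHU.improve (hg.anti subset_closure (min_le_left δ 1))
    (subset_closure.trans hsub) hm1
  have hle : min δ 1 + sSup A * (1 - min δ 1) ≤ sSup A :=
    le_csSup hbd ⟨by nlinarith, W', hW', hBU.trans (subset_closure.trans hsub), hi⟩
  exact ⟨_, hU, hBU, hHU.anti Subset.rfl (by nlinarith)⟩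

variable (E) in
theorem step [ConnectedSpace M] (hω : ∀ A : Set M, A.Countable → IsCompact (closure A))
    {W₀ : Set M} (h₀ : Lev W₀) {p : M} (hp : p ∈ W₀) :
    ∃ W : Set M, Lev W ∧ closure W₀ ⊆ W ∧
      ∀ u : M → ℝ, Psh E u W → BddAbove (u '' W) → ∀ x ∈ W₀, ∀ y ∈ W₀, u y ≤ u x := by
  obtain ⟨D, hD, hWD⟩ : IsSeparable W₀ := (sep_of_compact E h₀.2.2).mono subset_closure
  have hcg : ∀ d : M, (𝓝 d).IsCountablyGenerated := fun d => by
    rw [← (chartAt E d).symm_map_nhds_eq (mem_chart_source E d)]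
    infer_instance
  choose b hb using fun d : M => (𝓝 d).exists_antitone_basis
  have : Countable D := hD.to_subtype
  let ι : Type := {q : D × ℕ // (q.1 : M) ∈ W₀}
  have hι : ∀ i : ι, ∃ W : Set M, Lev W ∧ closure W₀ ⊆ W ∧
      Har E W (interior (b i.1.1 i.1.2)) (closure W₀) 1 := fun i =>
    har_one E hω isOpen_interior h₀.2.2
      (mem_interior_iff_mem_nhds.2 ((hb i.1.1).mem i.1.2)) (subset_closure i.2)
  choose W hW hsub hH using hι
  obtain ⟨d₀, hd₀W, hd₀⟩ := mem_closure_iff.1 (hWD hp) W₀ h₀.1 hp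
  have hU : closure W₀ ⊆ ⋃ i, W i :=
    (hsub ⟨(⟨d₀, hd₀⟩, 0), hd₀W⟩).trans (subset_iUnion W _)
  have hL : Lev (⋃ i, W i) := Lev.iUnion E hω hW fun i => hsub i (subset_closure hp)
  refine ⟨_, hL, hU, ?_⟩
  rintro u hu ⟨C, hC⟩ x hx y hy
  refine le_of_forall_gt_imp_ge_of_dense fun m hm => ?_
  have hxU := hU (subset_closure hx)
  have hev : ∀ᶠ z in 𝓝 x, u z < m := by
    have := (upperSemicontinuousWithinAt_iff.1 (hu.1 x hxU)) m hm
    rwa [hL.1.nhdsWithin_eq hxU] at this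
  obtain ⟨N, hN, hNo, hxN⟩ := mem_nhds_iff.1 (inter_mem hev (h₀.1.mem_nhds hx))
  obtain ⟨d, hdN, hd⟩ := mem_closure_iff.1 (hWD hx) N hNo hxN
  obtain ⟨k, hk⟩ := (hb d).mem_iff.1 (hNo.mem_nhds hdN)
  have := (hH ⟨(⟨d, hd⟩, k), (hN hdN).2⟩).mono (subset_iUnion W _) u hu (max C m) (max C m - m)
    (sub_nonneg.2 (le_max_right _ _))
    (fun z hz => (hC (mem_image_of_mem u hz)).trans (le_max_left _ _))
    (fun z hz => by
      have : u z < m := (hN (hk (interior_subset hz))).1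
      linarith) y (subset_closure hy)
  linarith

theorem exists_closed {T : Type} (t : T) (f : T → T → T) (g : T → T) :
    ∃ S : Set T, S.Countable ∧ t ∈ S ∧ (∀ a ∈ S, ∀ b ∈ S, f a b ∈ S) ∧ ∀ a ∈ S, g a ∈ S := by
  let F : Set T → Set T := fun s => s ∪ (image2 f s s ∪ g '' s)
  let s : ℕ → Set T := fun n => F^[n] {t}
  have hs : ∀ n, s (n + 1) = F (s n) := fun n => Function.iterate_succ_apply' F n _
  have hm : Monotone s := monotone_nat_of_le_succ fun n => by
    rw [hs]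
    exact subset_union_left
  have hc : ∀ n, (s n).Countable := by
    intro n
    induction n with
    | zero => exact countable_singleton t
    | succ n ih =>
      rw [hs]
      exact ih.union ((ih.image2 ih f).union (ih.image g))
  refine ⟨⋃ n, s n, countable_iUnion hc, mem_iUnion.2 ⟨0, rfl⟩, fun a ha b hb => ?_,
    fun a ha => ?_⟩
  · obtain ⟨i, hi⟩ := mem_iUnion.1 ha
    obtain ⟨j, hj⟩ := mem_iUnion.1 hb
    refine mem_iUnion.2 ⟨max i j + 1, ?_⟩
    rw [hs]
    exact Or.inr (Or.inl (mem_image2_of_mem (hm (le_max_left i j) hi) (hm (le_max_right i j) hj)))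
  · obtain ⟨i, hi⟩ := mem_iUnion.1 ha
    refine mem_iUnion.2 ⟨i + 1, ?_⟩
    rw [hs]
    exact Or.inr (Or.inr (mem_image_of_mem g hi))

/-- The component of `x` in the complement of `L` is not relatively compact. -/
def Unb (L : Set M) (x : M) : Prop := ¬ IsCompact (closure (connectedComponentIn Lᶜ x))

variable (E) in
include E in
theorem comps [ConnectedSpace M] {L : Set M} (hL : IsCompact L) :
    ∃ V : Set M, IsCompact V ∧ L ⊆ V ∧ ∃ 𝒞 : Set (Set M), 𝒞.Finite ∧
      ∀ x ∉ L, connectedComponentIn Lᶜ x ⊆ V ∨ connectedComponentIn Lᶜ x ∈ 𝒞 := by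
  have : LocallyConnectedSpace M := locConn E
  obtain ⟨p⟩ : Nonempty M := inferInstance
  obtain ⟨V, hV, hp, hLV⟩ := exists_lev E p hL
  have hop : ∀ x, IsOpen (connectedComponentIn Lᶜ x) := fun x =>
    hL.isClosed.isOpen_compl.connectedComponentIn
  have hfin : ((fun x => connectedComponentIn Lᶜ x) '' (closure V \ V)).Finite := by
    refine (hV.2.2.diff hV.1).induction_on
      (p := fun s => ((fun x => connectedComponentIn Lᶜ x) '' s).Finite) (by simp)
      (fun s t hst ht => ht.subset (image_mono hst))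
      (fun s t hs ht => by rw [image_union]; exact hs.union ht) ?_
    intro x hx
    have hxL : x ∈ Lᶜ := fun h => hx.2 (hLV h)
    refine ⟨connectedComponentIn Lᶜ x, mem_nhdsWithin_of_mem_nhds
      ((hop x).mem_nhds (mem_connectedComponentIn hxL)),
      (finite_singleton (connectedComponentIn Lᶜ x)).subset ?_⟩
    rintro _ ⟨y, hy, rfl⟩
    exact (connectedComponentIn_eq hy).symm
  refine ⟨closure V, hV.2.2, hLV.trans subset_closure, _, hfin, fun x hx => ?_⟩
  by_cases h : (connectedComponentIn Lᶜ x ∩ (closure V \ V)).Nonempty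
  · obtain ⟨y, hy, hyF⟩ := h
    exact Or.inr ⟨y, hyF, (connectedComponentIn_eq hy).symm⟩
  left
  have hsub : connectedComponentIn Lᶜ x ⊆ V ∪ (closure V)ᶜ := by
    intro y hy
    by_contra hn
    exact h ⟨y, hy, not_not.1 fun h' => hn (Or.inr h'), fun h' => hn (Or.inl h')⟩
  rcases isPreconnected_connectedComponentIn.subset_or_subset hV.1 isClosed_closure.isOpen_compl
    (disjoint_compl_right.mono_left subset_closure) hsub with h1 | h1
  · exact h1.trans subset_closure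
  exfalso
  have h2 : closure (connectedComponentIn Lᶜ x) ⊆ Vᶜ :=
    closure_minimal (h1.trans (compl_subset_compl.2 subset_closure)) hV.1.isClosed_compl
  have h3 : closure (connectedComponentIn Lᶜ x) ⊆ connectedComponentIn Lᶜ x :=
    isPreconnected_connectedComponentIn.closure.subset_connectedComponentIn
      (subset_closure (mem_connectedComponentIn hx)) (h2.trans (compl_subset_compl.2 hLV))
  have h4 := IsClopen.eq_univ ⟨closure_subset_iff_isClosed.1 h3, hop x⟩
    ⟨x, mem_connectedComponentIn hx⟩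
  exact h1 (h4.symm ▸ mem_univ p) (subset_closure hp)

variable (E) in
include E in
theorem hull [ConnectedSpace M] {L : Set M} (hL : IsCompact L) :
    ∃ Q : Set M, IsCompact Q ∧ L ⊆ Q ∧ ∀ x ∉ Q, Unb L x := by
  obtain ⟨V, hV, hLV, 𝒞, hf, h⟩ := comps E hL
  refine ⟨V ∪ ⋃ C ∈ {C ∈ 𝒞 | IsCompact (closure C)}, closure C,
    hV.union ((hf.subset (sep_subset _ _)).isCompact_biUnion fun C hC => hC.2),
    hLV.trans subset_union_left, fun x hx hc => hx ?_⟩
  have hxL : x ∉ L := fun h' => hx (Or.inl (hLV h'))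
  rcases h x hxL with h | h
  · exact Or.inl (h (mem_connectedComponentIn hxL))
  · exact Or.inr (mem_biUnion (x := connectedComponentIn Lᶜ x) ⟨h, hc⟩
      (subset_closure (mem_connectedComponentIn hxL)))

variable (E) in
include E in
theorem ends [ConnectedSpace M] (hω : ∀ A : Set M, A.Countable → IsCompact (closure A)) :
    ∃ L₀ : Set M, IsCompact L₀ ∧ ∀ L L' : Set M, IsCompact L → IsCompact L' → L₀ ⊆ L → L ⊆ L' →
      ∀ x ∉ L', ∀ y ∉ L', Unb L' x → Unb L' y → y ∈ connectedComponentIn Lᶜ x →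
        y ∈ connectedComponentIn L'ᶜ x := by
  let U : Set M → Set (Set M) := fun L =>
    (fun x => connectedComponentIn Lᶜ x) '' {x | x ∉ L ∧ Unb L x}
  have hfin : ∀ L, IsCompact L → (U L).Finite := by
    intro L hL
    obtain ⟨V, hV, -, 𝒞, hf, h⟩ := comps E hL
    refine hf.subset ?_
    rintro _ ⟨x, ⟨hx, hu⟩, rfl⟩
    exact (h x hx).resolve_left fun h' =>
      hu (hV.of_isClosed_subset isClosed_closure (closure_minimal h' hV.isClosed))
  let π : Set M → Set M → Set M := fun L C => ⋃ x ∈ C, connectedComponentIn Lᶜ x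
  have hπ : ∀ L L' : Set M, L ⊆ L' → ∀ x ∉ L',
      π L (connectedComponentIn L'ᶜ x) = connectedComponentIn Lᶜ x := by
    intro L L' h x hx
    refine Subset.antisymm (iUnion₂_subset fun y hy => ?_)
      (subset_biUnion_of_mem (u := fun x => connectedComponentIn Lᶜ x)
        (mem_connectedComponentIn hx))
    exact (connectedComponentIn_eq (connectedComponentIn_mono x (compl_subset_compl.2 h) hy)).ge
  have him : ∀ L L' : Set M, IsCompact L' → L ⊆ L' → π L '' U L' = U L := by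
    intro L L' hL' h
    apply Subset.antisymm
    · rintro _ ⟨_, ⟨x, ⟨hx, hu⟩, rfl⟩, rfl⟩
      refine ⟨x, ⟨fun h' => hx (h h'), fun hc => hu (hc.of_isClosed_subset isClosed_closure
        (closure_mono (connectedComponentIn_mono x (compl_subset_compl.2 h))))⟩, ?_⟩
      exact (hπ L L' h x hx).symm
    · rintro _ ⟨x, ⟨hx, hu⟩, rfl⟩
      obtain ⟨Q, hQ, hLQ, hq⟩ := hull E hL'
      obtain ⟨y, hy, hyQ⟩ := not_subset.1 fun h' : connectedComponentIn Lᶜ x ⊆ Q =>
        hu (hQ.of_isClosed_subset isClosed_closure (closure_minimal h' hQ.isClosed))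
      have hyL : y ∉ L' := fun h' => hyQ (hLQ h')
      exact ⟨_, ⟨y, ⟨hyL, hq y hyQ⟩, rfl⟩,
        (hπ L L' h y hyL).trans (connectedComponentIn_eq hy).symm⟩
  have hle : ∀ L L' : Set M, IsCompact L' → L ⊆ L' → (U L).ncard ≤ (U L').ncard := by
    intro L L' hL' h
    rw [← him L L' hL' h]
    exact ncard_image_le (hfin L' hL')
  let ι : Type := {n : ℕ // ∃ L : Set M, IsCompact L ∧ (U L).ncard = n}
  choose K hK hn using fun i : ι => i.2
  have h0 := compact_closure_iUnion E hω hK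
  refine ⟨_, h0, fun L L' hL hL' h1 h2 x hx y hy ux uy hxy => ?_⟩
  have hinj : InjOn (π L) (U L') := by
    refine injOn_of_ncard_image_eq (le_antisymm (ncard_image_le (hfin L' hL')) ?_) (hfin L' hL')
    rw [him L L' hL' h2]
    have := hn ⟨_, L', hL', rfl⟩
    exact this.ge.trans (hle _ L hL (((subset_iUnion K _).trans subset_closure).trans h1))
  have := hinj ⟨x, ⟨hx, ux⟩, rfl⟩ ⟨y, ⟨hy, uy⟩, rfl⟩
    (by rw [hπ L L' h2 x hx, hπ L L' h2 y hy]; exact connectedComponentIn_eq hxy)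
  beta_reduce at this
  rw [this]
  exact mem_connectedComponentIn hy

variable (E) in
include E in
theorem join {L Q : Set M} (hL : IsClosed L) (hQ : IsCompact Q) (hQL : Q ⊆ Lᶜ) :
    ∃ Q' : Set M, IsCompact Q' ∧ ∀ x ∈ Q, ∀ y ∈ Q, y ∈ connectedComponentIn Lᶜ x →
      ∃ C : Set M, IsPreconnected C ∧ C ⊆ Q' \ L ∧ x ∈ C ∧ y ∈ C := by
  have : LocallyConnectedSpace M := locConn E
  have hop : ∀ x, IsOpen (connectedComponentIn Lᶜ x) := fun x =>
    hL.isOpen_compl.connectedComponentIn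
  suffices h : ∃ Q' : Set M, IsCompact Q' ∧ ∀ z ∈ Q ×ˢ Q, z.2 ∈ connectedComponentIn Lᶜ z.1 →
      ∃ C : Set M, IsPreconnected C ∧ C ⊆ Q' \ L ∧ z.1 ∈ C ∧ z.2 ∈ C by
    obtain ⟨Q', h1, h2⟩ := h
    exact ⟨Q', h1, fun x hx y hy => h2 (x, y) ⟨hx, hy⟩⟩
  refine (hQ.prod hQ).induction_on (p := fun s => ∃ Q' : Set M, IsCompact Q' ∧ ∀ z ∈ s,
    z.2 ∈ connectedComponentIn Lᶜ z.1 →
      ∃ C : Set M, IsPreconnected C ∧ C ⊆ Q' \ L ∧ z.1 ∈ C ∧ z.2 ∈ C) ?_ ?_ ?_ ?_
  · exact ⟨∅, isCompact_empty, fun z hz => hz.elim⟩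
  · rintro s t hst ⟨Q', h1, h2⟩
    exact ⟨Q', h1, fun z hz => h2 z (hst hz)⟩
  · rintro s t ⟨Q₁, h1, h2⟩ ⟨Q₂, h3, h4⟩
    refine ⟨Q₁ ∪ Q₂, h1.union h3, ?_⟩
    rintro z (hz | hz) h
    · obtain ⟨C, c1, c2, c3⟩ := h2 z hz h
      exact ⟨C, c1, c2.trans (sdiff_subset_sdiff_left subset_union_left), c3⟩
    · obtain ⟨C, c1, c2, c3⟩ := h4 z hz h
      exact ⟨C, c1, c2.trans (sdiff_subset_sdiff_left subset_union_right), c3⟩
  · rintro ⟨x, y⟩ ⟨hx, hy⟩
    have hx' := mem_connectedComponentIn (hQL hx)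
    have hy' := mem_connectedComponentIn (hQL hy)
    by_cases h : y ∈ connectedComponentIn Lᶜ x
    · obtain ⟨V, hV, hVD, hxV, hyV⟩ := exists_lev_in E (hop x) isPreconnected_connectedComponentIn
        hx' isCompact_singleton (singleton_subset_iff.2 h)
      refine ⟨V ×ˢ V, mem_nhdsWithin_of_mem_nhds (prod_mem_nhds (hV.1.mem_nhds hxV)
        (hV.1.mem_nhds (hyV rfl))), closure V, hV.2.2, fun z hz _ => ⟨V, hV.2.1, fun w hw =>
          ⟨subset_closure hw, connectedComponentIn_subset _ _ (hVD hw)⟩, hz.1, hz.2⟩⟩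
    · refine ⟨connectedComponentIn Lᶜ x ×ˢ connectedComponentIn Lᶜ y, mem_nhdsWithin_of_mem_nhds
        (prod_mem_nhds ((hop x).mem_nhds hx') ((hop y).mem_nhds hy')), ∅, isCompact_empty,
        fun z hz hz' => (h ?_).elim⟩
      rw [connectedComponentIn_eq hz.1, connectedComponentIn_eq hz',
        ← connectedComponentIn_eq hz.2]
      exact hy'

end Pool.Agent.FS.LiouvilleLevels
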